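import Pool.Agent.H21.NX.Conv
import Pool.Agent.H21.HD.Inst
import Pool.Agent.H74.SC.WinD

/-!
# Points of multiplicity `d`: forms of degree `d` in one variable less
-/

set_option autoImplicit false

namespace Pool.Agent.H74.V8C

open Finset MvPolynomial Pool.Agent.H18.Fat Pool.Agent.H18.Ex Pool.Agent.H21.NX Pool.Agent.H21.HD

private theorem sum_cons_filter {n d : ℕ} (F : (Fin (n + 1) → ℕ) → ℂ)
    (h : ∀ a ∈ Sx (Fin (n + 1)) d, a 0 ≠ 0 → F a = 0) :
    ∑ a ∈ Sx (Fin (n + 1)) d, F a = ∑ a ∈ Sx (Fin n) d, F (Fin.cons 0 a) := by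
  classical
  rw [← Finset.sum_filter_add_sum_filter_not (Sx (Fin (n + 1)) d) (fun a => a 0 = 0)]
  rw [Finset.sum_eq_zero (s := (Sx (Fin (n + 1)) d).filter fun a => ¬ a 0 = 0)
    (fun a ha => h a (mem_filter.1 ha).1 (mem_filter.1 ha).2), add_zero]
  symm
  refine sum_bij (fun a _ => (Fin.cons 0 a : Fin (n + 1) → ℕ)) ?_ ?_ ?_ ?_
  · intro a ha
    rw [mem_Sx] at ha
    rw [mem_filter, mem_Sx, Fin.sum_univ_succ]
    simp [ha]
  · intro a _ b _ hab
    exact (Fin.cons_injective2 hab).2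
  · intro b hb
    rw [mem_filter, mem_Sx, Fin.sum_univ_succ] at hb
    refine ⟨fun i => b i.succ, ?_, ?_⟩
    · rw [mem_Sx]
      have := hb.1
      have := hb.2
      omega
    · funext i
      refine Fin.cases ?_ (fun j => ?_) i
      · rw [Fin.cons_zero]
        exact hb.2.symm
      · rw [Fin.cons_succ]
  · intro a _
    rfl

private theorem tcr_single {n : ℕ} (a b : Fin (n + 1) → ℕ) (i : Fin n)
    (h : a i.succ ≠ b i.succ) : tcr (Pi.single 0 (1 : ℂ) : Fin (n + 1) → ℂ) a b = 0 := by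
  unfold tcr
  refine Finset.prod_eq_zero (mem_univ i.succ) ?_
  rw [Pi.single_eq_of_ne (Fin.succ_ne_zero i)]
  rcases lt_or_gt_of_ne h with h1 | h1
  · rw [Nat.choose_eq_zero_of_lt h1, Nat.cast_zero, zero_mul]
  · rw [zero_pow (by omega), mul_zero]

/-- A point of multiplicity `d`: one variable less. -/
theorem GI_cone {r d : ℕ} {κ : Type} (m : κ → ℕ)
    (h : GI (Sx (Fin (r + 1)) d) fun i => Kind.free (m i)) :
    GI (Sx (Fin (r + 2)) d) fun i : κ ⊕ Unit => Kind.free (Sum.elim m (fun _ => d) i) := by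
  classical
  obtain ⟨pos, hpos⟩ := h
  refine ⟨Sum.elim (fun i => Fin.cons 0 (pos i)) fun _ => Pi.single 0 1, fun f hf => ?_⟩
  -- the exponents with `a 0 ≠ 0`
  have h0 : ∀ a ∈ Sx (Fin (r + 2)) d, a 0 ≠ 0 → f a = 0 := by
    intro a ha ha0
    have h1 := hf (Sum.inr ()) (Function.update a 0 0) (by
      show ∑ i, Function.update a 0 0 i < d
      rw [mem_Sx, Fin.sum_univ_succ] at ha
      rw [Fin.sum_univ_succ, Function.update_self]
      have h2 : ∑ i : Fin (r + 1), Function.update a 0 0 i.succ = ∑ i : Fin (r + 1), a i.succ :=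
        sum_congr rfl fun i _ => Function.update_of_ne (Fin.succ_ne_zero i) _ _
      omega)
    have h2 : ∑ a' ∈ Sx (Fin (r + 2)) d, f a' * tcr (Pi.single 0 (1 : ℂ) : Fin (r + 2) → ℂ) a'
        (Function.update a 0 0) = f a * tcr (Pi.single 0 (1 : ℂ) : Fin (r + 2) → ℂ) a
        (Function.update a 0 0) := by
      refine Finset.sum_eq_single a (fun a' ha' hne => ?_) (fun h => absurd ha h)
      have hex : ∃ i : Fin (r + 1), a' i.succ ≠ a i.succ := by
        by_contra hcon
        push Not at hcon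
        apply hne
        rw [mem_Sx, Fin.sum_univ_succ] at ha ha'
        rw [sum_congr rfl fun i _ => hcon i] at ha'
        funext i
        refine Fin.cases ?_ (fun j => ?_) i
        · omega
        · exact hcon j
      obtain ⟨i, hi⟩ := hex
      rw [tcr_single a' (Function.update a 0 0) i (by
        rw [Function.update_of_ne (Fin.succ_ne_zero i)]
        exact hi), mul_zero]
    have h3 : tcr (Pi.single 0 (1 : ℂ) : Fin (r + 2) → ℂ) a (Function.update a 0 0) = 1 := by
      unfold tcr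
      rw [Fin.prod_univ_succ]
      simp
    have h4 : ∑ a' ∈ Sx (Fin (r + 2)) d, f a' * tcr (Pi.single 0 (1 : ℂ) : Fin (r + 2) → ℂ) a'
        (Function.update a 0 0) = 0 := h1
    rw [h2, h3, mul_one] at h4
    exact h4
  -- the exponents with `a 0 = 0`
  have h1 : ∀ a ∈ Sx (Fin (r + 1)) d, f (Fin.cons 0 a) = 0 := by
    refine hpos (fun a => f (Fin.cons 0 a)) fun i b hb => ?_
    have h2 := hf (Sum.inl i) (Fin.cons 0 b) (by
      show ∑ j, (Fin.cons 0 b : Fin (r + 2) → ℕ) j < m i
      rw [Fin.sum_univ_succ]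
      simp only [Fin.cons_zero, Fin.cons_succ, zero_add]
      exact hb)
    have h3 : ∑ a ∈ Sx (Fin (r + 2)) d, f a * tcr (Fin.cons 0 (pos i) : Fin (r + 2) → ℂ) a
        (Fin.cons 0 b : Fin (r + 2) → ℕ) = 0 := h2
    rw [sum_cons_filter _ (fun a ha ha0 => by rw [h0 a ha ha0, zero_mul])] at h3
    have h4 : ∀ a : Fin (r + 1) → ℕ, tcr (Fin.cons 0 (pos i) : Fin (r + 2) → ℂ)
        (Fin.cons 0 a : Fin (r + 2) → ℕ) (Fin.cons 0 b : Fin (r + 2) → ℕ) = tcr (pos i) a b := by
      intro a
      unfold tcr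
      rw [Fin.prod_univ_succ]
      simp
    rw [← h3]
    exact sum_congr rfl fun a _ => by rw [h4]; rfl
  intro a ha
  by_cases ha0 : a 0 = 0
  · have h2 := h1 (fun i => a i.succ) (by
      rw [mem_Sx, Fin.sum_univ_succ] at ha
      rw [mem_Sx]
      omega)
    have h3 : (Fin.cons 0 (fun i => a i.succ) : Fin (r + 2) → ℕ) = a := by
      funext i
      refine Fin.cases ?_ (fun j => ?_) i
      · rw [Fin.cons_zero]
        exact ha0.symm
      · rw [Fin.cons_succ]
    rw [h3] at h2
    exact h2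
  · exact h0 a ha ha0

/-- Simple points. -/
theorem gdim_simples (r d : ℕ) {κ : Type} [Fintype κ] (m : κ → ℕ) (n : ℕ) :
    gdim r d (Sum.elim m fun _ : Fin n => 1) ≤ gdim r d m - n := by
  induction n with
  | zero =>
    have h1 := gdim_comp_equiv r d (Equiv.sumEmpty κ (Fin 0)).symm (Sum.elim m fun _ : Fin 0 => 1)
    have h2 : (fun i => Sum.elim m (fun _ : Fin 0 => 1) ((Equiv.sumEmpty κ (Fin 0)).symm i)) = m := by
      funext i
      rfl
    rw [h2] at h1
    omega
  | succ n ih =>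
    let e : κ ⊕ Fin (n + 1) ≃ (κ ⊕ Fin n) ⊕ Unit :=
      (Equiv.sumCongr (Equiv.refl κ) ((finSuccEquiv n).trans (Equiv.optionEquivSumPUnit (Fin n)))).trans
        (Equiv.sumAssoc κ (Fin n) Unit).symm
    have h1 := gdim_comp_equiv r d e (Sum.elim (Sum.elim m fun _ : Fin n => 1) fun _ : Unit => 1)
    have h2 : (fun i => Sum.elim (Sum.elim m fun _ : Fin n => 1) (fun _ : Unit => 1) (e i)) =
        Sum.elim m fun _ : Fin (n + 1) => 1 := by
      funext i
      rcases i with i | i
      · rfl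
      · refine Fin.cases ?_ (fun j => ?_) i <;> simp [e]
    rw [h2] at h1
    rw [h1]
    have h3 := gdim_elim_le r d (Sum.elim m fun _ : Fin n => 1) (fun _ : Unit => 1)
    by_cases h4 : gdim r d (Sum.elim (Sum.elim m fun _ : Fin n => 1) fun _ : Unit => 1) =
        gdim r d (Sum.elim m fun _ : Fin n => 1)
    · have h5 := gdim_simple r d (Sum.elim m fun _ : Fin n => 1) 1 le_rfl h4
      omega
    · omega

/-- A point of multiplicity `d`. -/
theorem gdim_cone (r d : ℕ) {κ : Type} [Fintype κ] (m : κ → ℕ) :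
    gdim (r + 1) d (Sum.elim m fun _ : Unit => d) ≤ gdim r d m := by
  classical
  obtain ⟨X, hX⟩ : ∃ X, X = gdim r d m := ⟨_, rfl⟩
  have h1 := gdim_simples r d m X
  rw [← hX, Nat.sub_self, Nat.le_zero] at h1
  obtain ⟨p, hp⟩ := GenBX.gdim_attained r d (Sum.elim m fun _ : Fin X => 1)
  rw [h1] at hp
  have h2 := gdim_of_GI _ (GI_cone _ (GI_of_fat p _ hp))
  let e : (κ ⊕ Unit) ⊕ Fin X ≃ (κ ⊕ Fin X) ⊕ Unit :=
    (Equiv.sumAssoc κ Unit (Fin X)).trans ((Equiv.sumCongr (Equiv.refl κ)
      (Equiv.sumComm Unit (Fin X))).trans (Equiv.sumAssoc κ (Fin X) Unit).symm)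
  have h3 := gdim_comp_equiv (r + 1) d e
    (Sum.elim (Sum.elim m fun _ : Fin X => 1) fun _ : Unit => d)
  have h4 : (fun i => Sum.elim (Sum.elim m fun _ : Fin X => 1) (fun _ : Unit => d) (e i)) =
      Sum.elim (Sum.elim m fun _ : Unit => d) fun _ : Fin X => 1 := by
    funext i
    rcases i with (i | i) | i <;> rfl
  rw [h4, h2] at h3
  have h5 := le_gdim_elim (r + 1) d (by omega) (Sum.elim m fun _ : Unit => d)
    (fun _ : Fin X => 1)
  rw [h3] at h5
  have h6 : ell (r + 1) 1 = 1 := by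
    unfold ell
    rw [show 1 + (r + 1) - 1 = r + 1 by omega, Nat.choose_self]
  simp only [h6, Finset.sum_const, Finset.card_univ, Fintype.card_fin, smul_eq_mul, mul_one,
    zero_add] at h5
  omega

/-! ### The expected dimension -/

theorem fro_map {P P' : Type} (r : ℕ) (e : P → ℕ) (f : P' ↪ P) (I : Finset P') (j : ℕ) :
    fro r e (I.map f) j = fro r (fun i => e (f i)) I j := by
  classical
  unfold fro
  rw [Finset.map_eq_image, Finset.powerset_image,
    Finset.sum_image (fun a _ b _ hab => Finset.image_injective f.injective hab)]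
  refine sum_congr rfl fun T _ => ?_
  rw [Finset.card_image_of_injective _ f.injective,
    Finset.sum_image (fun a _ b _ hab => f.injective hab)]

/-- A factor `1 - t`. -/
theorem fro_cone {P : Type} [DecidableEq P] (r : ℕ) (e : P → ℕ) (I : Finset P) (i : P)
    (hi : i ∉ I) (he : e i = 1) (j : ℕ) : fro (r + 1) e (insert i I) j = fro r e I j := by
  rw [fro_insert' (r + 1) e I i hi j, he]
  unfold fro
  by_cases hj : 1 ≤ j
  · rw [if_pos hj, ← Finset.sum_sub_distrib]
    refine sum_congr rfl fun T _ => ?_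
    rw [← mul_sub]
    congr 1
    rcases Nat.lt_or_ge j (∑ x ∈ T, e x) with h1 | h1
    · rw [if_neg (by omega), if_neg (by omega), if_neg (by omega), sub_zero]
    · rcases Nat.eq_or_lt_of_le h1 with h2 | h2
      · rw [if_pos (by omega), if_neg (by omega), if_pos (by omega), ← h2,
          show r + 1 + ∑ x ∈ T, e x - ∑ x ∈ T, e x = r + 1 by omega,
          show r + ∑ x ∈ T, e x - ∑ x ∈ T, e x = r by omega, Nat.choose_self, Nat.choose_self,
          sub_zero]
      · rw [if_pos (by omega), if_pos (by omega), if_pos (by omega)]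
        obtain ⟨x, hx⟩ : ∃ x, j = ∑ x ∈ T, e x + (x + 1) := ⟨j - ∑ x ∈ T, e x - 1, by omega⟩
        rw [hx, show r + 1 + (∑ x ∈ T, e x + (x + 1)) - ∑ x ∈ T, e x = (r + x + 1) + 1 by omega,
          show r + 1 + (∑ x ∈ T, e x + (x + 1) - 1) - ∑ x ∈ T, e x = r + x + 1 by omega,
          show r + (∑ x ∈ T, e x + (x + 1)) - ∑ x ∈ T, e x = r + x + 1 by omega,
          Nat.choose_succ_succ]
        push_cast
        ring
  · rw [if_neg hj, sub_zero]
    refine sum_congr rfl fun T _ => ?_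
    congr 1
    by_cases h1 : ∑ x ∈ T, e x ≤ j
    · rw [if_pos h1, if_pos h1, show r + 1 + j - ∑ x ∈ T, e x = r + 1 by omega,
        show r + j - ∑ x ∈ T, e x = r by omega, Nat.choose_self, Nat.choose_self]
    · rw [if_neg h1, if_neg h1]

end Pool.Agent.H74.V8C
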