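import Pool.Agent.H74.V8.Cone
import Pool.Agent.V8.End.Low

/-!
# The exact dimension with any number of points of multiplicity `d`
-/

set_option autoImplicit false

namespace Pool.Agent.H74.V8C

open Finset MvPolynomial Pool.Agent.H18.Fat Pool.Agent.H18.Ex Pool.Agent.H21.NX Pool.Agent.H21.HD

private theorem card_succAbove {n : ℕ} (i : Fin (n + 1)) (P : Fin (n + 1) → Prop) [DecidablePred P] :
    (univ.filter P).card = (if P i then 1 else 0) + (univ.filter fun j => P (i.succAbove j)).card := by
  rw [Finset.card_filter, Finset.card_filter, Fin.sum_univ_succAbove _ i]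

/-- From boundedly many large points to any number of points of multiplicity `d`, the upper
bound. -/
theorem upper_cones (d K r₀ : ℕ)
    (h : ∀ r, r₀ ≤ r → ∀ (k : ℕ) (m : Fin k → ℕ), (∀ i, 1 ≤ m i ∧ m i ≤ d) →
      (univ.filter fun i => d + 1 < 2 * m i).card ≤ K →
      ForGeneralPoints r k fun p => (Module.finrank ℂ (fatForms r d p m) : ℤ) =
        max (fro r (fun i => d + 1 - m i) univ d) 0) (c : ℕ) :
    ∀ r, r₀ + c ≤ r → ∀ (k : ℕ) (m : Fin k → ℕ), (∀ i, 1 ≤ m i ∧ m i ≤ d) →
      (univ.filter fun i => d + 1 < 2 * m i ∧ m i < d).card ≤ K →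
      (univ.filter fun i => d + 1 < 2 * m i ∧ m i = d).card = c →
      (gdim r d m : ℤ) ≤ max (fro r (fun i => d + 1 - m i) univ d) 0 := by
  classical
  induction c with
  | zero =>
    intro r hr k m hm hA hC
    have h1 : (univ.filter fun i => d + 1 < 2 * m i).card ≤ K := by
      refine le_trans (card_le_card fun i hi => ?_) hA
      rw [mem_filter] at hi ⊢
      refine ⟨hi.1, hi.2, ?_⟩
      rw [card_eq_zero, filter_eq_empty_iff] at hC
      have h2 := hC (mem_univ i)
      have h3 := hm i
      have h4 := hi.2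
      omega
    have hg : Gen r (Fin k) fun p => (Module.finrank ℂ (fatForms r d p m) : ℤ) =
        max (fro r (fun i => d + 1 - m i) univ d) 0 := h r (by omega) k m hm h1
    obtain ⟨p, hp1, hp2⟩ := (hg.and (gen_gdim r d m)).exists
    rw [← hp2, hp1]
  | succ c ih =>
    intro r hr k m hm hA hC
    obtain ⟨i, hi⟩ : (univ.filter fun i => d + 1 < 2 * m i ∧ m i = d).Nonempty := by
      rw [← card_pos]
      omega
    rw [mem_filter] at hi
    obtain ⟨-, hi1, hi2⟩ := hi
    obtain ⟨n, rfl⟩ : ∃ n, k = n + 1 := by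
      rcases k with _ | n
      · exact i.elim0
      · exact ⟨n, rfl⟩
    obtain ⟨s, rfl⟩ : ∃ s, r = s + 1 := ⟨r - 1, by omega⟩
    rw [card_succAbove i, if_neg (by omega), zero_add] at hA
    rw [card_succAbove i, if_pos ⟨hi1, hi2⟩] at hC
    have h1 := ih s (by omega) n (fun j => m (i.succAbove j)) (fun j => hm _) hA (by omega)
    let e : Fin (n + 1) ≃ Fin n ⊕ Unit := (finSuccEquiv' i).trans (Equiv.optionEquivSumPUnit (Fin n))
    have h2 := gdim_comp_equiv (s + 1) d e
      (Sum.elim (fun j => m (i.succAbove j)) fun _ : Unit => d)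
    have h3 : (fun j => Sum.elim (fun j => m (i.succAbove j)) (fun _ : Unit => d) (e j)) = m := by
      funext j
      by_cases hj : j = i
      · rw [hj]
        simp [e, hi2]
      · obtain ⟨y, rfl⟩ := Fin.exists_succAbove_eq hj
        simp [e]
    rw [h3] at h2
    have h4 := gdim_cone s d fun j => m (i.succAbove j)
    have h5 : fro (s + 1) (fun i => d + 1 - m i) univ d =
        fro s (fun j => d + 1 - m (i.succAbove j)) univ d := by
      rw [Fin.univ_succAbove n i, Finset.cons_eq_insert,
        fro_cone s (fun i => d + 1 - m i) (univ.map i.succAboveEmb) i (by simp) (by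
          show d + 1 - m i = 1
          omega) d, fro_map]
      rfl
    rw [h5, h2]
    have h6 : (gdim (s + 1) d (Sum.elim (fun j => m (i.succAbove j)) fun _ : Unit => d) : ℤ) ≤
        gdim s d fun j => m (i.succAbove j) := by exact_mod_cast h4
    exact h6.trans h1

/-- The exact dimension: at most `K` points of multiplicities between `(d + 1) / 2` and `d`, and at
most `r - r₀` points of multiplicity `d`. -/
theorem exact_cones (d K : ℕ)
    (h : ∃ r₀ : ℕ, ∀ r, r₀ ≤ r → ∀ (k : ℕ) (m : Fin k → ℕ), (∀ i, 1 ≤ m i ∧ m i ≤ d) →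
      (univ.filter fun i => d + 1 < 2 * m i).card ≤ K →
      ForGeneralPoints r k fun p => (Module.finrank ℂ (fatForms r d p m) : ℤ) =
        max (fro r (fun i => d + 1 - m i) univ d) 0) :
    ∃ r₀ : ℕ, ∀ (r k : ℕ) (m : Fin k → ℕ), (∀ i, 1 ≤ m i ∧ m i ≤ d) →
      (univ.filter fun i => d + 1 < 2 * m i ∧ m i < d).card ≤ K →
      (univ.filter fun i => d + 1 < 2 * m i ∧ m i = d).card + r₀ ≤ r →
      ForGeneralPoints r k fun p => (Module.finrank ℂ (fatForms r d p m) : ℤ) =
        max (fro r (fun i => d + 1 - m i) univ d) 0 := by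
  classical
  obtain ⟨r₀, h₀⟩ := h
  refine ⟨r₀ + K + 1, fun r k m hm hA hC => ?_⟩
  have h1 := upper_cones d K r₀ h₀ _ r (by omega) k m hm hA rfl
  obtain ⟨I, hI⟩ : ∃ I : Finset (Fin k), I = univ.filter fun i => d + 1 < 2 * m i := ⟨_, rfl⟩
  have hnI : ∀ i, i ∉ I → 2 * m i ≤ d + 1 := by
    intro i hi
    rw [hI, mem_filter, not_and, not_lt] at hi
    exact hi (mem_univ i)
  have hIc : I.card ≤ r := by
    have h2 : I ⊆ (univ.filter fun i => d + 1 < 2 * m i ∧ m i < d) ∪
        (univ.filter fun i => d + 1 < 2 * m i ∧ m i = d) := by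
      intro i hi
      rw [hI, mem_filter] at hi
      rw [mem_union, mem_filter, mem_filter]
      rcases Nat.lt_or_ge (m i) d with h3 | h3
      · exact Or.inl ⟨mem_univ _, hi.2, h3⟩
      · exact Or.inr ⟨mem_univ _, hi.2, le_antisymm (hm i).2 h3⟩
    have h3 := (card_le_card h2).trans (card_union_le _ _)
    omega
  have hlow := Pool.Agent.V8.lowK r d k (by omega) m I hIc hm (fun i j _ hi hj => by
    have := hnI i hi
    have := hnI j hj
    omega)
  have hg : Gen r (Fin k) fun p => Module.finrank ℂ (fatForms r d p m) = gdim r d m :=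
    gen_gdim r d m
  have hg2 : Gen r (Fin k) fun p =>
      fro r (fun i => d + 1 - m i) univ d ≤ (Module.finrank ℂ (fatForms r d p m) : ℤ) := hlow
  have hfin : Gen r (Fin k) fun p => (Module.finrank ℂ (fatForms r d p m) : ℤ) =
        max (fro r (fun i => d + 1 - m i) univ d) 0 := by
    refine (hg.and hg2).mono ?_
    rintro p ⟨hp1, hp2⟩
    rw [← hp1] at h1
    omega
  exact hfin

end Pool.Agent.H74.V8C
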